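import Pool.Agent.Y504.CO.Stm3
import Pool.Agent.Y96.CO.T0
import Pool.Agent.Y96.CO.T1

/-!
# CO-C0 (job 9664): minimal limits of orbit segments based at a point (helper739), after the files
`T1` and `T2` of helper96
-/

set_option autoImplicit false

open scoped Topology
open Filter Set Metric

universe u

namespace Pool.Agent.Y739.CO.C0

open Pool.Agent.TH80.OMS Pool.Agent.Y504.CO

theorem main : S_C0.{u} := by
  intro X _ _ f z hz
  have h0 : S_T0.{u} := Pool.Agent.Y96.CO.T0.main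
  let 𝒦 : Set (Set X) := {H | LimAt f z H}
  -- chains
  have hchain : ∀ c ⊆ 𝒦, IsChain (· ⊆ ·) c → c.Nonempty → ∃ lb ∈ 𝒦, ∀ s ∈ c, lb ⊆ s := by
    intro c hc hch hne
    haveI : Nonempty c := hne.to_subtype
    have hdir : Directed (· ⊇ ·) (fun s : c => (s : Set X)) := by
      intro a b
      rcases hch.total a.2 b.2 with h | h
      · exact ⟨a, subset_rfl, h⟩
      · exact ⟨b, h, subset_rfl⟩
    have hcl : ∀ s : c, IsClosed (s : Set X) := fun s => (hc s.2).1
    have hnhds : ∀ U : Set X, IsOpen U → ⋂₀ c ⊆ U → ∃ H ∈ c, H ⊆ U := by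
      intro U hU hKU
      obtain ⟨s, hs⟩ := exists_subset_nhds_of_compactSpace hdir hcl (U := U) (fun x hx =>
        hU.mem_nhds (hKU (by rw [sInter_eq_iInter]; exact hx)))
      exact ⟨s, s.2, hs⟩
    have hKlim : LimAt f z (⋂₀ c) := by
      refine ⟨isClosed_sInter fun s hs => (hc hs).1, fun ε hε => ?_⟩
      obtain ⟨H, hH, hHU⟩ := hnhds (thickening (ε / 2) (⋂₀ c)) isOpen_thickening
        (self_subset_thickening (by linarith) _)
      obtain ⟨p, n, hs, h1, h2⟩ := (hc hH).2 (ε / 2) (by linarith)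
      exact ⟨p, n, Pool.Agent.Y96.CO.T1.seg_of_near (sInter_subset_of_mem hH) hHU hs,
        by linarith, by linarith⟩
    exact ⟨⋂₀ c, hKlim, fun s hs => sInter_subset_of_mem hs⟩
  -- the family is not empty
  have hne : ∃ H, H ∈ 𝒦 := by
    have hch : ∀ k : ℕ, ∃ n : ℕ, 1 ≤ n ∧ ∃ p ∈ ball z (1 / ((k : ℝ) + 1)),
        f^[n] p ∈ ball z (1 / ((k : ℝ) + 1)) := fun k =>
      hz _ isOpen_ball (mem_ball_self (by positivity))
    choose n hn p hp hfp using hch
    have h1k : Tendsto (fun k : ℕ => 1 / ((k : ℝ) + 1)) atTop (𝓝 0) :=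
      tendsto_one_div_add_atTop_nhds_zero_nat
    have hpx : Tendsto p atTop (𝓝 z) := by
      rw [tendsto_iff_dist_tendsto_zero]
      exact squeeze_zero (fun k => dist_nonneg) (fun k => (mem_ball.1 (hp k)).le) h1k
    have hfpx : Tendsto (fun k => f^[n k] (p k)) atTop (𝓝 z) := by
      rw [tendsto_iff_dist_tendsto_zero]
      exact squeeze_zero (fun k => dist_nonneg) (fun k => (mem_ball.1 (hfp k)).le) h1k
    have hd := hfpx.dist hpx
    rw [dist_self] at hd
    obtain ⟨φ, H, hφ, hHc, hHn, hs⟩ := (h0 X f).1 p n hn hd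
    refine ⟨H, hHc, fun ε hε => ?_⟩
    have e1 := hs ε hε
    have e2 := (hpx.comp hφ.tendsto_atTop).eventually (ball_mem_nhds z hε)
    have e3 := (hfpx.comp hφ.tendsto_atTop).eventually (ball_mem_nhds z hε)
    obtain ⟨k, ⟨s1, s2⟩, s3⟩ := ((e1.and e2).and e3).exists
    exact ⟨_, _, s1, s2, s3⟩
  obtain ⟨H1, hH1⟩ := hne
  obtain ⟨H, -, hm⟩ := zorn_superset_nonempty 𝒦 hchain H1 hH1
  have hlim : LimAt f z H := hm.prop
  have hmin : ∀ H' ⊆ H, LimAt f z H' → H' = H := fun H' hH' hl =>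
    Subset.antisymm hH' (hm.le_of_le (show H' ∈ 𝒦 from hl) hH')
  refine ⟨H, hlim, hmin, ?_⟩
  intro p n i j hij hseg hi hj ε hε
  by_contra hcon
  have hfreq : ∃ᶠ k in atTop, ¬ Seg f H ε (f^[i k] (p k)) (j k - i k) := by
    rw [Filter.frequently_atTop]
    intro a
    rw [Filter.eventually_atTop] at hcon
    push Not at hcon
    obtain ⟨b, hb, hb'⟩ := hcon a
    exact ⟨b, hb, hb'⟩
  obtain ⟨ψ, hψ, hψ'⟩ := Filter.extraction_of_frequently_atTop hfreq
  -- the new segments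
  have hend : ∀ k, f^[j (ψ k) - i (ψ k)] (f^[i (ψ k)] (p (ψ k))) = f^[j (ψ k)] (p (ψ k)) := by
    intro k
    rw [← Function.iterate_add_apply, Nat.sub_add_cancel (hij (ψ k)).1.le]
  have hd : Tendsto (fun k => dist (f^[j (ψ k) - i (ψ k)] (f^[i (ψ k)] (p (ψ k))))
      (f^[i (ψ k)] (p (ψ k)))) atTop (𝓝 0) := by
    have h1 := (hj.comp hψ.tendsto_atTop).dist (hi.comp hψ.tendsto_atTop)
    rw [dist_self] at h1
    refine h1.congr fun k => ?_
    rw [hend]
    rfl
  obtain ⟨φ, H', hφ, hH'c, hH'n, hH's⟩ := (h0 X f).1 (fun k => f^[i (ψ k)] (p (ψ k)))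
    (fun k => j (ψ k) - i (ψ k)) (fun k => by have := (hij (ψ k)).1; omega) hd
  have htend : Tendsto (fun k => ψ (φ k)) atTop atTop := hψ.tendsto_atTop.comp hφ.tendsto_atTop
  -- the limit is contained in `H`
  have hsub : H' ⊆ H := by
    intro y' hy'
    rw [← hlim.1.closure_eq, Metric.mem_closure_iff]
    intro ε' hε'
    have e1 := hH's (ε' / 2) (by linarith)
    have e2 := htend.eventually (hseg (ε' / 2) (by linarith))
    obtain ⟨k, s1, s2⟩ := (e1.and e2).exists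
    obtain ⟨t, ht, htd⟩ := s1.dense y' hy'
    have e : f^[t] (f^[i (ψ (φ k))] (p (ψ (φ k)))) = f^[t + i (ψ (φ k))] (p (ψ (φ k))) := by
      rw [← Function.iterate_add_apply]
    have hle : t + i (ψ (φ k)) ≤ n (ψ (φ k)) := by
      have := hij (ψ (φ k))
      omega
    obtain ⟨h, hh, hhd⟩ := s2.near _ hle
    refine ⟨h, hh, ?_⟩
    have htd' : dist (f^[t] (f^[i (ψ (φ k))] (p (ψ (φ k))))) y' < ε' / 2 := htd
    rw [e] at htd'
    have h3 := dist_triangle_left y' h (f^[t + i (ψ (φ k))] (p (ψ (φ k))))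
    linarith
  -- the limit is based at `z`
  have hlim' : LimAt f z H' := by
    refine ⟨hH'c, fun ε' hε' => ?_⟩
    have e1 := hH's ε' hε'
    have e2 := htend.eventually ((Metric.tendsto_nhds.1 hi) ε' hε')
    have e3 := htend.eventually ((Metric.tendsto_nhds.1 hj) ε' hε')
    obtain ⟨k, ⟨s1, s2⟩, s3⟩ := ((e1.and e2).and e3).exists
    refine ⟨_, _, s1, s2, ?_⟩
    have h4 := hend (φ k)
    show dist (f^[j (ψ (φ k)) - i (ψ (φ k))] (f^[i (ψ (φ k))] (p (ψ (φ k))))) z < ε'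
    rw [h4]
    exact s3
  have hEq : H' = H := hmin H' hsub hlim'
  obtain ⟨k, hk⟩ := (hH's ε hε).exists
  rw [hEq] at hk
  exact hψ' (φ k) hk

end Pool.Agent.Y739.CO.C0
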